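import Mathlib
import Pool.Agent.Lib.helper4.FreeBall

namespace Pool.Agent.Results.MP_15e198_al.BallFormula

/-- `X ⊆ F_r` freely generates a subgroup: the homomorphism from the free group on `X` to `F_r`
sending each element of `X` to itself is injective. -/
def FreelyGenerates {r : ℕ} (X : Finset (FreeGroup (Fin r))) : Prop :=
  Function.Injective (FreeGroup.lift (Subtype.val : X → FreeGroup (Fin r)))

/-- The sizes of the subsets of the ball `B_n` of `F_r` that freely generate a subgroup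
(`FreeGroup.norm` is the length of the reduced word). -/
def sizes (r n : ℕ) : Set ℕ :=
  {m | ∃ X : Finset (FreeGroup (Fin r)), (∀ g ∈ X, g.norm ≤ n) ∧ FreelyGenerates X ∧ X.card = m}

/-- `N(r,0) = 0`, `N(r,2k+1) = r (2r-1)^k`, `N(r,2k+2) = (2r-1)^(k+1)`. -/
theorem result (r : ℕ) (hr : 1 ≤ r) :
    IsGreatest (sizes r 0) 0 ∧
    (∀ k : ℕ, IsGreatest (sizes r (2 * k + 1)) (r * (2 * r - 1) ^ k)) ∧
    (∀ k : ℕ, IsGreatest (sizes r (2 * k + 2)) ((2 * r - 1) ^ (k + 1))) := by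
  have : Nonempty (Fin r) := ⟨⟨0, hr⟩⟩
  refine ⟨⟨⟨∅, by simp, fun _ _ _ => Subsingleton.elim _ _, rfl⟩, ?_⟩, fun k => ⟨?_, ?_⟩,
    fun k => ⟨?_, ?_⟩⟩
  · rintro m ⟨X, h1, h2, rfl⟩
    by_contra hn
    obtain ⟨g, hg⟩ := Finset.card_pos.1 (not_le.1 hn)
    have h3 : g = 1 := FreeGroup.norm_eq_zero.1 (Nat.le_zero.1 (h1 g hg))
    have h4 : FreeGroup.of (⟨g, hg⟩ : X) = 1 := h2 (by simp [h3])
    exact FreeGroup.of_ne_one _ h4
  · obtain ⟨X, h1, h2, h3⟩ := H4FreeBall.lower_odd (α := Fin r) k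
    exact ⟨X, fun g hg => (h2 g hg).le, h3, by simpa using h1⟩
  · rintro m ⟨X, h1, h2, rfl⟩
    simpa using (H4FreeBall.upper _ X h1 h2).1 k rfl
  · obtain ⟨X, h1, h2, h3⟩ := H4FreeBall.lower_even (α := Fin r) k
    exact ⟨X, fun g hg => (h2 g hg).le, h3, by simpa using h1⟩
  · rintro m ⟨X, h1, h2, rfl⟩
    simpa using (H4FreeBall.upper _ X h1 h2).2 k rfl

end Pool.Agent.Results.MP_15e198_al.BallFormula
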